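import Pool.Agent.Work.MP_ef7f46_tn.Interface

/-!
MP_ef7f46_co, project TN (helper86): block SPEC (helper31).
The large part of the spectrum of `K K^T` is small.
-/

set_option autoImplicit false
open Classical Finset

noncomputable section

namespace TN
namespace SPEC

/-- spectral theorem in elementary form -/
theorem spectral {Q : Type} [Fintype Q] (S : Q → Q → ℝ) (hS : ∀ x y, S x y = S y x) :
    ∃ (μ : Q → ℝ) (u : Q → Q → ℝ), (∀ k l, ∑ y, u k y * u l y = if k = l then 1 else 0) ∧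
      (∀ f : Q → ℝ, ∑ k, (∑ y, u k y * f y) ^ 2 = ∑ y, f y ^ 2) ∧
      (∀ k x, ∑ y, S x y * u k y = μ k * u k x) := by
  have hA : (Matrix.of S).IsHermitian := by
    ext x y
    simp [hS x y]
  have hinner : ∀ a b : EuclideanSpace ℝ Q, inner ℝ a b = ∑ y, a y * b y := by
    intro a b
    simp only [PiLp.inner_apply, RCLike.inner_apply, conj_trivial]
    exact Finset.sum_congr rfl fun y _ => mul_comm _ _
  refine ⟨hA.eigenvalues, fun k y => hA.eigenvectorBasis k y, ?_, ?_, ?_⟩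
  · intro k l
    have h := orthonormal_iff_ite.1 hA.eigenvectorBasis.orthonormal k l
    rw [hinner] at h
    exact h
  · intro f
    have h := hA.eigenvectorBasis.sum_sq_norm_inner_right (WithLp.toLp 2 f)
    rw [EuclideanSpace.norm_sq_eq] at h
    simp only [hinner, Real.norm_eq_abs, sq_abs] at h
    exact h
  · intro k x
    have h := congrFun (hA.mulVec_eigenvectorBasis k) x
    simpa [Matrix.mulVec, dotProduct] using h

variable {Q Λ : Type} [Fintype Λ]

/-- the matrix `K K^T` -/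
def S (inc : Λ → Finset Q) (x y : Q) : ℝ :=
  ∑ ℓ, (if x ∈ inc ℓ then (1 : ℝ) else 0) * (if y ∈ inc ℓ then 1 else 0)

theorem S_comm (inc : Λ → Finset Q) (x y : Q) : S inc x y = S inc y x :=
  Finset.sum_congr rfl fun _ _ => mul_comm _ _

theorem S_nonneg (inc : Λ → Finset Q) (x y : Q) : 0 ≤ S inc x y := by
  refine Finset.sum_nonneg fun ℓ _ => ?_
  split_ifs <;> norm_num

theorem S_eq_chi (inc : Λ → Finset Q) (x y : Q) : S inc x y = chi inc x y := by
  unfold S chi
  rw [Finset.card_filter, Nat.cast_sum]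
  refine Finset.sum_congr rfl fun ℓ _ => ?_
  by_cases h1 : x ∈ inc ℓ <;> by_cases h2 : y ∈ inc ℓ <;> simp [h1, h2]

theorem S_le_one [Fintype Q] {inc : Λ → Finset Q} {N M : ℕ} (h : Lin inc N M) {x y : Q} (hxy : x ≠ y) :
    S inc x y ≤ 1 := by
  rw [S_eq_chi]
  unfold chi
  exact_mod_cast h.codeg x y hxy

theorem S_self [Fintype Q] {inc : Λ → Finset Q} {N M : ℕ} (h : Lin inc N M) (x : Q) :
    S inc x x ≤ N := by
  rw [S_eq_chi]
  unfold chi
  simp only [and_self]
  exact_mod_cast h.deg x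

theorem S_row [Fintype Q] {inc : Λ → Finset Q} {N M : ℕ} (h : Lin inc N M) (x : Q) :
    ∑ y, S inc x y ≤ (N : ℝ) ^ 2 := by
  unfold S
  rw [Finset.sum_comm]
  have h1 : ∀ ℓ : Λ, ∑ y : Q, (if x ∈ inc ℓ then (1 : ℝ) else 0) * (if y ∈ inc ℓ then 1 else 0)
      = (if x ∈ inc ℓ then (1 : ℝ) else 0) * N := by
    intro ℓ
    rw [← Finset.mul_sum]
    congr 1
    simp [h.line ℓ]
  rw [Finset.sum_congr rfl fun ℓ _ => h1 ℓ, ← Finset.sum_mul]
  have h2 : ∑ ℓ : Λ, (if x ∈ inc ℓ then (1 : ℝ) else 0) ≤ N := by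
    have := h.deg x
    rw [Finset.card_filter] at this
    exact_mod_cast this
  have h3 : (0 : ℝ) ≤ N := Nat.cast_nonneg _
  nlinarith

theorem S_sq [Fintype Q] {inc : Λ → Finset Q} {N M : ℕ} (h : Lin inc N M) :
    ∑ x, ∑ y, S inc x y ^ 2 ≤ 2 * (N * M) * (N : ℝ) ^ 2 := by
  have h1 : ∀ x : Q, ∑ y, S inc x y ^ 2 ≤ 2 * (N : ℝ) ^ 2 := by
    intro x
    have h2 : ∀ y : Q, S inc x y ^ 2 ≤ (if y = x then (N : ℝ) ^ 2 else 0) + S inc x y := by
      intro y
      have h0 := S_nonneg inc x y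
      by_cases hy : y = x
      · subst hy
        simp only [if_true]
        have := S_self h y
        nlinarith
      · simp only [hy, if_false]
        have := S_le_one h (Ne.symm hy)
        nlinarith
    calc ∑ y, S inc x y ^ 2 ≤ ∑ y, ((if y = x then (N : ℝ) ^ 2 else 0) + S inc x y) :=
          Finset.sum_le_sum fun y _ => h2 y
      _ = (N : ℝ) ^ 2 + ∑ y, S inc x y := by
          rw [Finset.sum_add_distrib]
          simp
      _ ≤ 2 * (N : ℝ) ^ 2 := by linarith [S_row h x]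
  calc ∑ x, ∑ y, S inc x y ^ 2 ≤ ∑ _x : Q, 2 * (N : ℝ) ^ 2 := Finset.sum_le_sum fun x _ => h1 x
    _ = 2 * (N * M) * (N : ℝ) ^ 2 := by
        rw [Finset.sum_const, Finset.card_univ, h.cardQ, nsmul_eq_mul]
        push_cast
        ring

end SPEC

theorem spec_ok : Stmt_SPEC := by
  intro Q Λ _ _ inc N M hL Θ hΘ
  obtain ⟨μ, u, hort, hpar, heig⟩ := SPEC.spectral (SPEC.S inc) (SPEC.S_comm inc)
  set L : Finset Q := univ.filter (fun k => Θ < μ k) with hLdef
  -- the sum of the squares of the eigenvalues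
  have hmu : ∑ k, μ k ^ 2 ≤ 2 * (N * M) * (N : ℝ) ^ 2 := by
    have h1 : ∀ k, μ k ^ 2 = ∑ x, (∑ y, u k y * SPEC.S inc x y) ^ 2 := by
      intro k
      have h2 : ∀ x, ∑ y, u k y * SPEC.S inc x y = μ k * u k x := by
        intro x
        rw [← heig k x]
        exact Finset.sum_congr rfl fun _ _ => mul_comm _ _
      have h3 := hort k k
      simp only [if_true] at h3
      calc μ k ^ 2 = μ k ^ 2 * ∑ x, u k x * u k x := by rw [h3, mul_one]
        _ = ∑ x, (μ k * u k x) ^ 2 := by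
            rw [Finset.mul_sum]
            exact Finset.sum_congr rfl fun _ _ => by ring
        _ = _ := Finset.sum_congr rfl fun x _ => by rw [h2 x]
    calc ∑ k, μ k ^ 2 = ∑ k, ∑ x, (∑ y, u k y * SPEC.S inc x y) ^ 2 :=
          Finset.sum_congr rfl fun k _ => h1 k
      _ = ∑ x, ∑ k, (∑ y, u k y * SPEC.S inc x y) ^ 2 := Finset.sum_comm
      _ = ∑ x, ∑ y, SPEC.S inc x y ^ 2 := Finset.sum_congr rfl fun x _ => hpar _
      _ ≤ _ := SPEC.S_sq hL
  have hcard : (L.card : ℝ) * Θ ^ 2 ≤ 2 * (N * M) * (N : ℝ) ^ 2 := by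
    calc (L.card : ℝ) * Θ ^ 2 = ∑ _k ∈ L, Θ ^ 2 := by rw [Finset.sum_const, nsmul_eq_mul]
      _ ≤ ∑ k ∈ L, μ k ^ 2 := by
          refine Finset.sum_le_sum fun k hk => ?_
          have : Θ < μ k := (Finset.mem_filter.1 hk).2
          nlinarith
      _ ≤ ∑ k, μ k ^ 2 :=
          Finset.sum_le_sum_of_subset_of_nonneg (Finset.subset_univ _) fun _ _ _ => sq_nonneg _
      _ ≤ _ := hmu
  refine ⟨L.card, fun i => u (L.equivFin.symm i), ?_, ?_, ?_⟩
  · intro i j
    rw [hort]
    by_cases hij : i = j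
    · simp [hij]
    · have : ((L.equivFin.symm i : Q)) ≠ (L.equivFin.symm j : Q) := by
        intro h
        exact hij (L.equivFin.symm.injective (Subtype.ext h))
      simp [hij, this]
  · rw [le_div_iff₀ (by positivity)]
    exact hcard
  · intro w
    have hsum : ∑ i : Fin L.card, (∑ y, u (L.equivFin.symm i) y * dg inc w y) ^ 2 =
        ∑ k ∈ L, (∑ y, u k y * dg inc w y) ^ 2 := by
      rw [← Finset.sum_coe_sort L (fun k => (∑ y, u k y * dg inc w y) ^ 2)]
      exact Equiv.sum_comp L.equivFin.symm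
        (fun k : L => (∑ y, u (k : Q) y * dg inc w y) ^ 2)
    rw [hsum, ← hpar (fun y => dg inc w y)]
    set c : Q → ℝ := fun k => ∑ y, u k y * dg inc w y with hc
    change ∑ k, c k ^ 2 - ∑ k ∈ L, c k ^ 2 ≤ _
    have hsplit : ∑ k, c k ^ 2 - ∑ k ∈ L, c k ^ 2 = ∑ k ∈ Lᶜ, c k ^ 2 := by
      rw [← Finset.sum_add_sum_compl L (fun k => c k ^ 2)]
      ring
    rw [hsplit]
    set P : ℝ := ∑ k ∈ Lᶜ, c k ^ 2 with hP
    set p : Q → ℝ := fun y => ∑ k ∈ Lᶜ, c k * u k y with hp
    set t : Λ → ℝ := fun ℓ => ∑ y, (if y ∈ inc ℓ then (1 : ℝ) else 0) * p y with ht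
    have hdg : ∀ y, dg inc w y = ∑ ℓ, w ℓ * (if y ∈ inc ℓ then (1 : ℝ) else 0) := by
      intro y
      unfold dg
      refine Finset.sum_congr rfl fun ℓ _ => ?_
      split_ifs <;> simp
    have hpd : ∑ y, p y * dg inc w y = P := by
      simp only [hp, Finset.sum_mul]
      rw [Finset.sum_comm, hP]
      refine Finset.sum_congr rfl fun k _ => ?_
      rw [pow_two]
      conv_rhs => rw [hc]
      simp only []
      rw [Finset.mul_sum]
      exact Finset.sum_congr rfl fun y _ => by ring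
    have hwt : ∑ ℓ, w ℓ * t ℓ = P := by
      rw [← hpd]
      simp only [ht, hdg, Finset.mul_sum]
      rw [Finset.sum_comm]
      exact Finset.sum_congr rfl fun y _ => Finset.sum_congr rfl fun ℓ _ => by ring
    have hpu : ∀ k ∈ Lᶜ, ∑ x, p x * u k x = c k := by
      intro k hk
      simp only [hp, Finset.sum_mul]
      rw [Finset.sum_comm]
      have : ∀ l ∈ Lᶜ, ∑ x, c l * u l x * u k x = c l * (if l = k then 1 else 0) := by
        intro l _
        rw [← hort l k, Finset.mul_sum]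
        exact Finset.sum_congr rfl fun _ _ => by ring
      rw [Finset.sum_congr rfl this]
      simp only [mul_ite, mul_one, mul_zero]
      rw [Finset.sum_ite_eq' Lᶜ k (fun l => c l)]
      simp only [hk, if_true]
    have htt : ∑ ℓ, t ℓ ^ 2 = ∑ k ∈ Lᶜ, μ k * c k ^ 2 := by
      have h1 : ∑ ℓ, t ℓ ^ 2 = ∑ x, p x * ∑ y, SPEC.S inc x y * p y := by
        have h2 : ∀ ℓ, t ℓ ^ 2 = ∑ x, ∑ y, p x * (((if x ∈ inc ℓ then (1 : ℝ) else 0) *
            (if y ∈ inc ℓ then (1 : ℝ) else 0)) * p y) := by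
          intro ℓ
          rw [pow_two, ht]
          simp only []
          rw [Finset.sum_mul_sum]
          exact Finset.sum_congr rfl fun _ _ => Finset.sum_congr rfl fun _ _ => by ring
        rw [Finset.sum_congr rfl fun ℓ _ => h2 ℓ, Finset.sum_comm]
        refine Finset.sum_congr rfl fun x _ => ?_
        rw [Finset.sum_comm, Finset.mul_sum]
        refine Finset.sum_congr rfl fun y _ => ?_
        have h5 : SPEC.S inc x y * p y = ∑ ℓ, ((if x ∈ inc ℓ then (1 : ℝ) else 0) *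
            (if y ∈ inc ℓ then (1 : ℝ) else 0)) * p y := by
          unfold SPEC.S
          exact Finset.sum_mul _ _ _
        rw [h5]
        exact (Finset.mul_sum _ _ _).symm
      have h3 : ∀ x, ∑ y, SPEC.S inc x y * p y = ∑ k ∈ Lᶜ, c k * (μ k * u k x) := by
        intro x
        simp only [hp, Finset.mul_sum]
        rw [Finset.sum_comm]
        refine Finset.sum_congr rfl fun k _ => ?_
        rw [← heig k x, Finset.mul_sum]
        exact Finset.sum_congr rfl fun _ _ => by ring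
      rw [h1, Finset.sum_congr rfl fun x _ => by rw [h3 x]]
      simp only [Finset.mul_sum]
      rw [Finset.sum_comm]
      refine Finset.sum_congr rfl fun k hk => ?_
      have h4 := hpu k hk
      calc ∑ x, p x * (c k * (μ k * u k x)) = μ k * c k * ∑ x, p x * u k x := by
            rw [Finset.mul_sum]
            exact Finset.sum_congr rfl fun _ _ => by ring
        _ = μ k * c k ^ 2 := by rw [h4]; ring
    have htt2 : ∑ ℓ, t ℓ ^ 2 ≤ Θ * P := by
      rw [htt, hP, Finset.mul_sum]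
      refine Finset.sum_le_sum fun k hk => ?_
      have h1 : ¬ Θ < μ k := by
        intro h
        exact (Finset.mem_compl.1 hk) (Finset.mem_filter.2 ⟨Finset.mem_univ _, h⟩)
      exact mul_le_mul_of_nonneg_right (not_lt.1 h1) (sq_nonneg _)
    have hCS : P ^ 2 ≤ (∑ ℓ, w ℓ ^ 2) * ∑ ℓ, t ℓ ^ 2 := by
      rw [← hwt]
      exact Finset.sum_mul_sq_le_sq_mul_sq _ _ _
    have hP0 : 0 ≤ P := Finset.sum_nonneg fun _ _ => sq_nonneg _
    have hW0 : 0 ≤ ∑ ℓ, w ℓ ^ 2 := Finset.sum_nonneg fun _ _ => sq_nonneg _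
    rcases hP0.eq_or_lt with h0 | h0
    · rw [← h0]
      positivity
    · have h1 : P * P ≤ (Θ * ∑ ℓ, w ℓ ^ 2) * P := by
        calc P * P = P ^ 2 := by ring
          _ ≤ (∑ ℓ, w ℓ ^ 2) * ∑ ℓ, t ℓ ^ 2 := hCS
          _ ≤ (∑ ℓ, w ℓ ^ 2) * (Θ * P) := mul_le_mul_of_nonneg_left htt2 hW0
          _ = _ := by ring
      exact le_of_mul_le_mul_right h1 h0

end TN
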